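import Pool.Agent.MP_ecfd11_lc.H3E.Defs
import Pool.Agent.MP_ecfd11_lc.H46.Defs

/-!
Few cardinals of HOD.
-/

namespace Pool.Agent.MP_ecfd11_lc.H65S

universe u

open ZFSet

/-- Some `f ∈ HOD` maps an ordinal `n` onto `X`, and at most `k` cardinals of HOD lie strictly
between `a` and `n`. -/
def Few (k : Cardinal.{u}) (a X : ZFSet.{u}) : Prop :=
  ∃ n f : ZFSet.{u}, n.IsOrdinal ∧ HOD Set.univ f ∧ IsFunc n X f ∧ (∀ x ∈ X, ∃ r, pair r x ∈ f) ∧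
    card (n.sep fun z => a ∈ z ∧ H46.HODCard z) ≤ k

/-- The ranges of countably many functions `a → X` in HOD cover `X`. -/
def Ctb (a X : ZFSet.{u}) : Prop :=
  ∃ u : ℕ → ZFSet.{u}, (∀ m, HOD Set.univ (u m) ∧ IsFunc a X (u m)) ∧
    ∀ x ∈ X, ∃ m i, pair i x ∈ u m

end Pool.Agent.MP_ecfd11_lc.H65S
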