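import Pool.Agent.MP_ecfd11_lc.H3E.Main
import Pool.Agent.MP_ecfd11_lc.H57F.Refl
import Pool.Agent.MP_ecfd11_lc.H65S.Defs

/-!
Covers of size `g`, collapses and long extenders.
-/

set_option synthInstance.maxSize 4000

namespace Pool.Agent.MP_ecfd11_lc.H65S

open Pool.Agent.MP_ecfd11_lc.H20 Pool.Agent.MP_ecfd11_lc.H13X Pool.Agent.MP_ecfd11_lc.H3U
  Pool.Agent.MP_ecfd11_lc.H3E

universe u

open ZFSet Cardinal Function Filter

variable {g a x y A X u : ZFSet.{u}}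

/-- Every subset of `a` of size at most `g` is bounded in `a`. -/
def BdK (g a : ZFSet.{u}) : Prop :=
  ∀ y, y ⊆ a → card y ≤ card g → ∃ c ∈ a, ∀ z ∈ y, z ∈ c

theorem BdK.unc (h : BdK g a) (hg : ℵ₀ ≤ card g) (ha : a.IsOrdinal) : Unc a :=
  ⟨ha, fun y h1 h2 => h y h1 (h2.trans (card_om.trans_le hg))⟩

theorem BdK.bd (h : BdK g a) : H57F.Bd (Order.succ (card g)) a :=
  fun y h1 h2 => h y h1 (Order.lt_succ_iff.1 h2)

/-- The club filter of `a` is closed under intersections of size `g`. -/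
theorem BdK.ev {S I : ZFSet.{u}} (h : BdK g a) (ha : Unc a) (hI : card I ≤ card g)
    {p : ZFSet.{u} → ZFSet.{u} → Prop} (hp : ∀ i ∈ I, ∀ᶠ L in cf S ha, p i L) :
    ∀ᶠ L in cf S ha, ∀ i ∈ I, p i L :=
  H57F.ev_small ha h.bd (Order.lt_succ_iff.2 hI) hp

/-- `u` is a set of at most `g` functions `A → X` in HOD whose ranges cover `X`. -/
def CovK (g A X u : ZFSet.{u}) : Prop :=
  card u ≤ card g ∧ (∀ f, f ∈ u → HOD Set.univ f ∧ IsFunc A X f) ∧
    ∀ x, x ∈ X → ∃ f, f ∈ u ∧ ∃ i, pair i x ∈ f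

theorem covK_of_cov (hg : ℵ₀ ≤ card g) (h : Cov A X u) : CovK g A X u :=
  ⟨h.1.trans (card_om.trans_le hg), h.2⟩

/-- `p` collapses `v[b]`. -/
def Clp (v b p : ZFSet.{u}) : Prop :=
  ∀ y, InP v b y → ∀ w, w ∈ app p y ↔ ∃ z, z ∈ y ∧ InP v b z ∧ app p z = w

/-- `τ` is computed at `b` from the collapse of `v[b]` and the function `h`. -/
def InTK (a u v τ b h : ZFSet.{u}) : Prop :=
  Clo a u b ∧ ∃ p, Clp v b p ∧
    ∀ x y, InP u b x → InP v b y → (pair x y ∈ τ ↔ app h (app p y) ∈ x)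

section
variable (o p q r s t : (ℕ → ZFSet.{u}) → ZFSet.{u}) [Tm Set.univ On o] [Tm Set.univ On p]
  [Tm Set.univ On q] [Tm Set.univ On r] [Tm Set.univ On s] [Tm Set.univ On t]

instance Df.covK : Df Set.univ On (fun v => CovK (q v) (r v) (s v) (t v)) := by
  unfold CovK; infer_instance

instance Df.clp : Df Set.univ On (fun v => Clp (r v) (s v) (t v)) := by
  unfold Clp; infer_instance

instance Df.inTK : Df Set.univ On (fun v => InTK (o v) (p v) (q v) (r v) (s v) (t v)) := by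
  unfold InTK; infer_instance

end

theorem Clp.unique {v b p q : ZFSet.{u}} (hp : Clp v b p) (hq : Clp v b q) :
    ∀ y, InP v b y → app p y = app q y := fun y => by
  induction y using ZFSet.inductionOn with
  | _ y ih =>
    intro hy
    refine ZFSet.ext fun w => ?_
    rw [hp y hy, hq y hy]
    exact exists_congr fun z => and_congr_right fun h1 => and_congr_right fun h2 => by
      rw [ih z h1 h2]

/-- The extender at `L` with support `G[Q]`. -/
noncomputable def ExQ (B : ZFSet.{u} → ZFSet.{u}) (L Q G : ZFSet.{u}) : ZFSet.{u} :=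
  (prod (Lev L) Q).sep fun p => ∃ x ∈ L, fst p = B x ∩ vC Set.univ L ∧ app G (snd p) ∈ B x

theorem ExQ_sub {B : ZFSet.{u} → ZFSet.{u}} {L Q G : ZFSet.{u}} :
    ExQ B L Q G ⊆ prod (Lev L) Q := sep_subset

theorem mem_ExQ {B : ZFSet.{u} → ZFSet.{u}} {L Q G : ZFSet.{u}} : pair x y ∈ ExQ B L Q G ↔
    x ∈ Lev L ∧ y ∈ Q ∧ ∃ w ∈ L, x = B w ∩ vC Set.univ L ∧ app G y ∈ B w := by
  simp only [ExQ, mem_sep, pair_mem_prod, fst_pair, snd_pair, and_assoc]

/-- The extenders at `a` are computed from collapses at cofinally many points. -/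
def RealK (g t : ZFSet.{u}) (B : ZFSet.{u} → ZFSet.{u}) (a : ZFSet.{u}) : Prop :=
  ∀ u v Q G : ZFSet.{u}, CovK g a (Lev a) u → Q.IsTransitive → (∃ y, y ∈ Q) → CovK g a Q v →
    G ∈ low t → ∀ i ∈ a, ∃ b ∈ a, i ∈ b ∧ ∃ h ∈ low a, InTK a u v (ExQ B a Q G) b h

end Pool.Agent.MP_ecfd11_lc.H65S
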