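import Pool.Agent.MP_ecfd11_lc.H65S.Cov

/-!
Covers by few small definable sets pass to larger cardinals of HOD.
-/

set_option synthInstance.maxSize 4000

namespace Pool.Agent.MP_ecfd11_lc.H65S

open Pool.Agent.MP_ecfd11_lc.H20 Pool.Agent.MP_ecfd11_lc.H13X Pool.Agent.MP_ecfd11_lc.H3U
  Pool.Agent.MP_ecfd11_lc.H3E

universe u

open ZFSet Cardinal Function Filter

variable {g a X Y n m th y : ZFSet.{u}} {k : Cardinal.{u}}

/-- `X` is covered by at most `k` definable sets that inject definably into `a`. -/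
def Cv (k : Cardinal.{u}) (a X : ZFSet.{u}) : Prop :=
  ∃ u, card u ≤ k ∧ (∀ W ∈ u, OD Set.univ W ∧ DInj Set.univ W a) ∧ ∀ x ∈ X, ∃ W ∈ u, x ∈ W

theorem Cv.self (hk : ℵ₀ ≤ k) (h0 : OD Set.univ X) (h : DInj Set.univ X a) : Cv k a X :=
  ⟨{X}, by rw [card_singleton]; exact one_le_aleph0.trans hk,
    fun W hW => mem_singleton.1 hW ▸ ⟨h0, h⟩, fun x hx => ⟨X, mem_singleton.2 rfl, hx⟩⟩

theorem Cv.inj (h : Cv k a Y) (h0 : OD Set.univ X) (h1 : DInj Set.univ X Y) : Cv k a X := by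
  obtain ⟨u, u1, u2, u3⟩ := h
  obtain ⟨F, f0, f1, f2⟩ := h1
  have := od_iff.1 h0
  have := Tm.one (C := Set.univ) (A := On) F
  refine ⟨img (fun W => X.sep fun x => F x ∈ W) u, (card_img_le _ _).trans u1, fun V hV => ?_,
    fun x hx => ?_⟩
  · obtain ⟨W, hW, rfl⟩ := mem_img.1 hV
    have := od_iff.1 (u2 W hW).1
    exact ⟨od_iff.2 inferInstance, DInj.trans ⟨F, f0, fun x hx => (mem_sep.1 hx).2,
      fun x hx z hz => f2 x (mem_sep.1 hx).1 z (mem_sep.1 hz).1⟩ (u2 W hW).2⟩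
  · obtain ⟨W, w1, w2⟩ := u3 _ (f1 x hx)
    exact ⟨_, mem_img.2 ⟨W, w1, rfl⟩, mem_sep.2 ⟨hx, w2⟩⟩

theorem Cv.prod (hk : ℵ₀ ≤ k) (ha : a.IsOrdinal) (ho : om ⊆ a) (h1 : Cv k a X) (h2 : Cv k a Y) :
    Cv k a (prod X Y) := by
  obtain ⟨u, u1, u2, u3⟩ := h1
  obtain ⟨v, v1, v2, v3⟩ := h2
  refine ⟨img (fun p => ZFSet.prod (fst p) (snd p)) (ZFSet.prod u v), (card_img_le _ _).trans
    ((card_prod_le _ _).trans ((mul_le_mul' u1 v1).trans_eq (mul_eq_self hk))), fun V hV => ?_,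
    fun z hz => ?_⟩
  · obtain ⟨p, hp, rfl⟩ := mem_img.1 hV
    obtain ⟨U, hU, W, hW, rfl⟩ := mem_prod.1 hp
    rw [fst_pair, snd_pair]
    have := od_iff.1 (u2 U hU).1
    have := od_iff.1 (v2 W hW).1
    exact ⟨od_iff.2 inferInstance, ((u2 U hU).2.prod (v2 W hW).2).trans (DInj.pairing ha ho)⟩
  · obtain ⟨x, hx, w, hw, rfl⟩ := mem_prod.1 hz
    obtain ⟨U, hU, h1⟩ := u3 x hx
    obtain ⟨W, hW, h2⟩ := v3 w hw
    exact ⟨_, mem_img.2 ⟨pair U W, pair_mem_prod.2 ⟨hU, hW⟩, rfl⟩, by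
      rw [fst_pair, snd_pair]; exact pair_mem_prod.2 ⟨h1, h2⟩⟩

theorem Cv.union (hk : ℵ₀ ≤ k) (hy : card y ≤ k) (F : ZFSet.{u} → ZFSet.{u})
    (h1 : ∀ i ∈ y, Cv k a (F i)) (h2 : ∀ x ∈ X, ∃ i ∈ y, x ∈ F i) : Cv k a X := by
  choose! U u1 u2 u3 using h1
  refine ⟨⋃₀ img U y, (card_sUnion_img_le u1).trans ((mul_le_mul' hy le_rfl).trans_eq
    (mul_eq_self hk)), fun W hW => ?_, fun x hx => ?_⟩
  · obtain ⟨_, h3, h4⟩ := mem_sUnion.1 hW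
    obtain ⟨i, hi, rfl⟩ := mem_img.1 h3
    exact u2 i hi W h4
  · obtain ⟨i, hi, h3⟩ := h2 x hx
    obtain ⟨W, w1, w2⟩ := u3 i hi x h3
    exact ⟨W, mem_sUnion.2 ⟨_, mem_img.2 ⟨i, hi, rfl⟩, w1⟩, w2⟩

theorem Cv.succ (hk : ℵ₀ ≤ k) (ho : om ⊆ a) (hn : n.IsOrdinal) (h : Cv k a n) :
    Cv k a (insert n n) := by
  obtain ⟨u, u1, u2, u3⟩ := h
  have : Tm Set.univ On (fun _ => n) := Tm.ofOrd hn
  refine ⟨insert {n} u, card_insert_le.trans (add_le_of_le hk u1 (one_le_aleph0.trans hk)),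
    fun W hW => ?_, fun x hx => ?_⟩
  · rcases mem_insert_iff.1 hW with rfl | hW
    · exact ⟨od_iff.2 inferInstance, fun _ => ∅, inferInstance, fun _ _ =>
        ho ((mem_om_iff isOrdinal_empty).2 (by rw [card_empty]; exact aleph0_pos)),
        fun x hx z hz _ => (mem_singleton.1 hx).trans (mem_singleton.1 hz).symm⟩
    · exact u2 W hW
  · rcases mem_insert_iff.1 hx with rfl | hx
    · exact ⟨_, mem_insert _ _, mem_singleton.2 rfl⟩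
    · obtain ⟨W, w1, w2⟩ := u3 x hx
      exact ⟨W, mem_insert_of_mem _ w1, w2⟩

theorem kp_cof (hn : n.IsOrdinal) (x0 : OD Set.univ X) (x1 : ∀ x ∈ n, ∃ z ∈ n, z ∈ X ∧ x ∈ z)
    (h : ∀ z ∈ n, DInj Set.univ z m) (hm : OD Set.univ m) : DInj Set.univ n (prod X m) := by
  have := od_iff.1 x0
  have := od_iff.1 hm
  have : Tm Set.univ On (fun _ => n) := Tm.ofOrd hn
  obtain ⟨G, g0, g1⟩ := od_choice (C := Set.univ) n (fun z f => IsInj z m f)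
    fun z hz => (h z hz).exists_od (hn.mem hz)
  replace g1 := fun z hz => g1 z hz trivial
  have := Tm.one (C := Set.univ) (A := On) G
  obtain ⟨c, c0, c1⟩ : ∃ c : ZFSet.{u} → ZFSet.{u}, Tm Set.univ On (fun v => c (v 0)) ∧
      ∀ x ∈ n, c x ∈ n ∧ c x ∈ X ∧ x ∈ c x :=
    ⟨fun x => leastBy n (fun z => z) fun z => z ∈ X ∧ x ∈ z,
      Tm.leastBy n (fun z => z) fun x z => z ∈ X ∧ x ∈ z, fun x hx => leastBy_id hn (x1 x hx)⟩
  have := Tm.one (C := Set.univ) (A := On) c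
  refine ⟨fun x => pair (c x) (app (G (c x)) x), inferInstance, fun x hx => pair_mem_prod.2
    ⟨(c1 x hx).2.1, (g1 _ (c1 x hx).1).1.app_mem' (c1 x hx).2.2⟩, fun x hx z hz e => ?_⟩
  obtain ⟨e1, e2⟩ := pair_inj.1 e
  have h5 := g1 _ (c1 x hx).1
  rw [← e1] at e2
  exact h5.2 x z _ (h5.1.app_mem (c1 x hx).2.2) (e2 ▸ h5.1.app_mem (e1 ▸ (c1 z hz).2.2))

theorem kp_bdd (ha : a.IsOrdinal) (ho : om ⊆ a) (ht : th.IsOrdinal)
    (t1 : ∀ b ∈ th, DInj Set.univ b a) (t2 : ¬ DInj Set.univ th a) (x0 : OD Set.univ X)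
    (x1 : DInj Set.univ X a) : ∃ b ∈ th, ∀ i ∈ X, i ∈ th → i ⊆ b := by
  by_contra h
  push Not at h
  refine t2 ((kp_cof ht x0 (fun b hb => ?_) t1 (od_iff.2 (Tm.ofOrd ha))).trans
    ((x1.prod (DInj.of_subset subset_rfl)).trans (DInj.pairing ha ho)))
  obtain ⟨i, i1, i2, i3⟩ := h b hb
  exact ⟨i, i2, i1, ((ht.mem hb).mem_or_subset (ht.mem i2)).resolve_right i3⟩

theorem kp_cantor (ha : a.IsOrdinal) : ¬ DInj Set.univ (Lev a) a := by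
  rintro ⟨F, f0, f1, f2⟩
  have := hod_tm (hod_Lev ha)
  have : Tm Set.univ On (fun _ => a) := Tm.ofOrd ha
  have := Tm.one (C := Set.univ) (A := On) F
  obtain ⟨D, hD⟩ : ∃ D, D = a.sep fun i => ∃ x, x ∈ Lev a ∧ F x = i ∧ i ∉ x := ⟨_, rfl⟩
  have d0 : ∀ i, i ∈ D ↔ i ∈ a ∧ ∃ x, x ∈ Lev a ∧ F x = i ∧ i ∉ x := fun i => by rw [hD, mem_sep]
  have d1 : D ∈ Lev a := (mem_Lev ha).2 ⟨fun z hz => H3E.mem_vC ha ((d0 z).1 hz).1,
    hod_of_subset ha (hD ▸ sep_subset) (by rw [hD]; exact od_iff.2 inferInstance)⟩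
  have d2 : F D ∉ D := fun h => by
    obtain ⟨-, x, h1, h2, h3⟩ := (d0 _).1 h
    exact h3 (f2 x h1 D d1 h2 ▸ h)
  exact d2 ((d0 _).2 ⟨f1 D d1, D, d1, rfl, d2⟩)

theorem kp_th (ha : a.IsOrdinal) (ho : om ⊆ a) (h : Cv k a (Lev a)) : ∃ th y : ZFSet.{u},
    th.IsOrdinal ∧ (∀ b ∈ th, DInj Set.univ b a) ∧ ¬ DInj Set.univ th a ∧ card y ≤ k ∧ y ⊆ th ∧
      ∀ x ∈ th, ∃ b ∈ y, x ⊆ b := by
  obtain ⟨e, e0, e1, e2⟩ := od_enum (hod_Lev ha).self fun x hx => ((hod_Lev ha).mem hx).self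
  obtain ⟨th, ⟨t0, t1⟩, t2⟩ := exists_min_mem
    (p := fun t => t.IsOrdinal ∧ ¬ DInj Set.univ t a) (x := img e (Lev a)) ⟨e1, fun h1 =>
      kp_cantor ha (DInj.trans ⟨e, e0, fun x hx => mem_img.2 ⟨x, hx, rfl⟩, e2⟩ h1)⟩
  have t3 : ∀ b ∈ th, DInj Set.univ b a := fun b hb => by_contra fun h1 => t2 b hb ⟨t0.mem hb, h1⟩
  have t4 : th ⊆ img e (Lev a) := (e1.mem_or_subset t0).resolve_left fun h1 =>
    kp_cantor ha (DInj.trans ⟨e, e0, fun x hx => mem_img.2 ⟨x, hx, rfl⟩, e2⟩ (t3 _ h1))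
  have := hod_tm (hod_Lev ha)
  obtain ⟨u, u1, u2, u3⟩ := h.inj (od_iff.2 (Tm.ofOrd t0))
    (DInj.inv e e2 fun z hz => mem_img.1 (t4 hz))
  choose! B b1 b2 using fun W (hW : W ∈ u) => kp_bdd ha ho t0 t3 t1 (u2 W hW).1 (u2 W hW).2
  refine ⟨th, img B u, t0, t3, t1, (card_img_le _ _).trans u1, fun z hz => ?_, fun x hx => ?_⟩
  · obtain ⟨W, hW, rfl⟩ := mem_img.1 hz
    exact b1 W hW
  · obtain ⟨W, w1, w2⟩ := u3 x hx
    exact ⟨_, mem_img.2 ⟨W, w1, rfl⟩, b2 W w1 x w2 hx⟩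

theorem kp_step (hk : ℵ₀ ≤ k) (ha : a.IsOrdinal) (ho : om ⊆ a)
    (sl : ∀ l < card a, 2 ^ l < card a) (ht : th.IsOrdinal) (t1 : ∀ b ∈ th, DInj Set.univ b a)
    (t2 : ¬ DInj Set.univ th a) (y1 : card y ≤ k) (y2 : y ⊆ th) (y3 : ∀ x ∈ th, ∃ b ∈ y, x ⊆ b)
    (hn : Unc n) (hb : H57F.Bd (Order.succ k) n) {c : ZFSet.{u}} (c1 : Club n c)
    (c2 : card c < card a) (hm : m.IsOrdinal) (h1 : ∀ x ∈ n, H46.rho x ⊆ m) (h2 : Cv k a m) :
    Cv k a n := by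
  have cm := h2
  obtain ⟨u, u1, u2, u3⟩ := h2
  obtain ⟨E, e0, e1, e2⟩ := H46.exists_E hn.1
  have := Tm.two (C := Set.univ) (A := On) E
  have : Tm Set.univ On (fun _ => n) := Tm.ofOrd hn.1
  have : Tm Set.univ On (fun _ => th) := Tm.ofOrd ht
  have := neBot (S := n) hn fun ⟨e, e1, e2⟩ => by
    obtain ⟨x, x1, -⟩ := e1.2.1 _ hn.empty_mem
    exact e2 x (e1.1 x1) x1
  have ta : ∀ b ∈ th, insert b b ∈ th := fun b hb =>
    ((ht.mem hb).mem_or_subset ha).elim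
      (fun h => (isOrdinal_succ (ht.mem hb)).mem_or_subset ht |>.resolve_right fun h3 =>
        t2 (DInj.of_subset fun z hz => (mem_insert_iff.1 (h3 hz)).elim (fun e => e ▸ h)
          fun h4 => ha.mem_trans h4 h))
      fun h => (isOrdinal_succ (ht.mem hb)).mem_or_subset ht |>.resolve_right fun h3 =>
        t2 ((DInj.of_subset h3).trans ((DInj.hotel (ht.mem hb) (ho.trans h)).trans (t1 b hb)))
  have s1 : ∀ x ∈ n, ∃ W ∈ u, ∃ᶠ l in cf n hn, x ∈ l ∧ E l x ∈ W := fun x hx => by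
    by_contra h3
    simp only [not_exists, not_and, not_frequently] at h3
    obtain ⟨l, l1, l2, -, l3⟩ := ((H57F.ev_small hn hb (Order.lt_succ_iff.2 u1) h3).and
      ((ev_above hn hx).and (ev_mem hn))).exists
    obtain ⟨W, w1, w2⟩ := u3 _ (h1 l l3 (e1 l l3 x l2))
    exact l1 W w1 l2 w2
  obtain ⟨W, w1, w2⟩ : ∃ W ∈ u, ∀ x ∈ n, ∃ z ∈ n, (∃ᶠ l in cf n hn, z ∈ l ∧ E l z ∈ W) ∧ x ∈ z := by
    by_contra h3
    push Not at h3
    choose! B b1 b2 using h3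
    obtain ⟨d, d1, d2⟩ := hb (img B u) (fun z hz => by
      obtain ⟨W, hW, rfl⟩ := mem_img.1 hz
      exact b1 W hW) (Order.lt_succ_iff.2 ((card_img_le _ _).trans u1))
    obtain ⟨W, w1, w2⟩ := s1 d d1
    exact b2 W w1 d d1 w2 (d2 _ (mem_img.2 ⟨W, w1, rfl⟩))
  have := od_iff.1 (u2 W w1).1
  obtain ⟨X, hX⟩ : ∃ X, X = n.sep fun z => ¬ Null n (n.sep fun l => z ∈ l ∧ E l z ∈ W) :=
    ⟨_, rfl⟩
  have x0 : Tm Set.univ On (fun _ => X) := by rw [hX]; infer_instance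
  have x1 : ∀ z, z ∈ X ↔ z ∈ n ∧ ∃ᶠ l in cf n hn, z ∈ l ∧ E l z ∈ W := fun z => by
    rw [hX, mem_sep, fr_iff]
  obtain ⟨T, T0, T1⟩ : ∃ T : ZFSet.{u} → ZFSet.{u}, Tm Set.univ On (fun v => T (v 0)) ∧
      ∀ x z, z ∈ T x ↔ z ∈ X ∧ ∀ᶠ l in cf n hn, (z ∈ l ∧ E l z ∈ W ↔ x ∈ l ∧ E l x ∈ W) :=
    ⟨fun x => X.sep fun z => Null n (n.sep fun l => ¬ (z ∈ l ∧ E l z ∈ W ↔ x ∈ l ∧ E l x ∈ W)),
      inferInstance, fun _ _ => mem_sep⟩
  have := Tm.one (C := Set.univ) (A := On) T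
  have T2 : ∀ x ∈ X, x ∈ T x := fun x hx => (T1 x x).2 ⟨hx, Eventually.of_forall fun _ => Iff.rfl⟩
  have T3 : ∀ x, ∀ z ∈ T x, z.IsOrdinal := fun x z hz => hn.1.mem ((x1 z).1 ((T1 x z).1 hz).1).1
  by_cases h3 : ∀ x ∈ X, colIn (T x) x ∈ th
  · obtain ⟨q, q0, q1, q2⟩ := exists_quot (C := Set.univ) X hn.1
      (DInj.of_subset fun z hz => ((x1 z).1 hz).1) T
    have := Tm.one (C := Set.univ) (A := On) q
    have q3 : card (img q X) ≤ card (powerset c) := by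
      choose! p p1 p2 using fun z (hz : z ∈ img q X) => mem_img.1 hz
      refine card_le_of_inj (fun z => c.sep fun l => p z ∈ l ∧ E l (p z) ∈ W)
        (fun _ _ => mem_powerset.2 sep_subset) fun z hz w hw e => ?_
      rw [← p2 z hz, ← p2 w hw, q2 _ (p1 z hz) _ (p1 w hw)]
      have h4 : ∀ᶠ l in cf n hn, (p z ∈ l ∧ E l (p z) ∈ W ↔ p w ∈ l ∧ E l (p w) ∈ W) := by
        filter_upwards [ev_club hn c1] with l hl
        simpa only [mem_sep, hl, true_and] using ZFSet.ext_iff.1 e l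
      refine ZFSet.ext fun s => ?_
      rw [T1, T1]
      refine and_congr_right fun _ => ⟨fun h5 => ?_, fun h5 => ?_⟩
      · filter_upwards [h4, h5] with l l1 l2 using l2.trans l1
      · filter_upwards [h4, h5] with l l1 l2 using l2.trans l1.symm
    rw [card_powerset] at q3
    have q4 := H46.mem_of_card_lt q1 ha (q3.trans_lt (sl _ c2))
    have ct : Cv k a th := Cv.union hk y1 (fun b => insert b b)
      (fun b hb => Cv.self hk (od_iff.2 (Tm.ofOrd (ht.mem (ta b (y2 hb))))) (t1 _ (ta b (y2 hb))))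
      fun x hx => by
        obtain ⟨b, b1, b2⟩ := y3 x hx
        exact ⟨b, b1, mem_insert_iff.2 ((ht.mem hx).eq_or_mem_of_subset (ht.mem (y2 b1)) b2)⟩
    have cx : Cv k a X := (Cv.prod hk ha ho (Cv.self hk (od_iff.2 (Tm.ofOrd ha))
      (DInj.of_subset subset_rfl)) ct).inj (od_iff.2 x0)
      ⟨fun x => pair (q x) (colIn (T x) x), inferInstance, fun x hx => pair_mem_prod.2
        ⟨ha.mem_trans (mem_img.2 ⟨x, hx, rfl⟩) q4, h3 x hx⟩, fun x hx z hz e => by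
          obtain ⟨e3, e4⟩ := pair_inj.1 e
          have e5 := (q2 x hx z hz).1 e3
          rw [← e5] at e4
          exact colIn_inj (T3 x) (T2 x hx) (e5 ▸ T2 z hz) e4⟩
    refine (Cv.prod hk ha ho cx cm).inj (od_iff.2 inferInstance) (kp_cof hn.1 (od_iff.2 x0)
      (fun x hx => ?_) (fun z hz => ?_) (od_iff.2 (Tm.ofOrd hm)))
    · obtain ⟨z, z1, z2, z3⟩ := w2 x hx
      exact ⟨z, z1, (x1 z).2 ⟨z1, z2⟩, z3⟩
    · obtain ⟨-, ⟨f, f0, f1⟩, -⟩ := H46.rho_spec (hn.1.mem hz)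
      exact (H46.dInj_of_od f0 f1).trans (DInj.of_subset (h1 z hz))
  exfalso
  push Not at h3
  obtain ⟨x, hx, h3⟩ := h3
  rw [(colIn_ord _ _).notMem_iff_subset ht] at h3
  obtain ⟨K, hK⟩ : ∃ K, K = T x := ⟨_, rfl⟩
  have : Tm Set.univ On (fun _ => x) := Tm.ofOrd (hn.1.mem ((x1 x).1 hx).1)
  have : Tm Set.univ On (fun _ => K) := by rw [hK]; infer_instance
  have k1 : ∀ z ∈ K, z.IsOrdinal := hK ▸ T3 x
  have s2 : ∀ l ∈ n, ∃ b ∈ y, ∀ z ∈ K, z ∈ l → E l z ∈ W → colIn K z ∈ th → colIn K z ⊆ b :=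
    fun l hl => by
      have : Tm Set.univ On (fun _ => l) := Tm.ofOrd (hn.1.mem hl)
      obtain ⟨b, b1, b2⟩ := kp_bdd ha ho ht t1 t2
        (X := img (fun z => colIn K z) (K.sep fun z => z ∈ l ∧ E l z ∈ W)) (od_iff.2 inferInstance)
        ((DInj.inv (a := K.sep fun z => z ∈ l ∧ E l z ∈ W) (fun z => colIn K z)
          (fun z hz w hw => colIn_inj k1 (mem_sep.1 hz).1 (mem_sep.1 hw).1)
          fun z hz => mem_img.1 hz).trans (DInj.trans ⟨fun z => E l z, inferInstance,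
            fun z hz => (mem_sep.1 hz).2.2, fun z hz w hw =>
              e2 l hl z (mem_sep.1 hz).2.1 w (mem_sep.1 hw).2.1⟩ (u2 W w1).2))
      obtain ⟨d, d1, d2⟩ := y3 b b1
      exact ⟨d, d1, fun z z1 z2 z3 z4 =>
        (b2 _ (mem_img.2 ⟨z, mem_sep.2 ⟨z1, z2, z3⟩, rfl⟩) z4).trans d2⟩
  have s3 : ∀ b ∈ y, ∀ᶠ l in cf n hn, x ∈ l ∧ E l x ∈ W →
      ∃ z ∈ K, z ∈ l ∧ E l z ∈ W ∧ colIn K z = insert b b := fun b hb => by
    obtain ⟨z, z1, -, z2⟩ := (H46.mem_colIn (T3 x) (T2 x hx)).1 (h3 (ta b (y2 hb)))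
    filter_upwards [((T1 x z).1 z1).2] with l l1 l2
    exact ⟨z, hK ▸ z1, (l1.2 l2).1, (l1.2 l2).2, hK ▸ z2⟩
  obtain ⟨l, l1, l2, -, l3⟩ := (((x1 x).1 hx).2.and_eventually
    ((H57F.ev_small hn hb (Order.lt_succ_iff.2 y1) s3).and (ev_mem hn))).exists
  obtain ⟨b, b1, b2⟩ := s2 l l3
  obtain ⟨z, z1, z2, z3, z4⟩ := l2 b b1 l1
  exact mem_irrefl b (b2 z z1 z2 z3 (z4 ▸ ta b (y2 b1)) (z4 ▸ mem_insert b b))

theorem kp_core (hk : ℵ₀ ≤ k) (ha : a.IsOrdinal) (ho : om ⊆ a) (hs : SL a) (h : Cv k a (Lev a))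
    (hn : n.IsOrdinal) (h1 : card n ≤ card a)
    (h2 : card (n.sep fun x => a ∈ x ∧ H46.HODCard x) ≤ k) : Cv k a n := by
  obtain ⟨th, y, ht, t1, t2, y1, y2, y3⟩ := kp_th ha ho h
  induction n using ZFSet.inductionOn with
  | _ n ih =>
  have ih' : ∀ b ∈ n, Cv k a b := fun b hb => ih b hb (hn.mem hb)
    ((card_mono (hn.subset_of_mem hb)).trans h1) ((card_mono fun z hz =>
      mem_sep.2 ⟨hn.mem_trans (mem_sep.1 hz).1 hb, (mem_sep.1 hz).2⟩).trans h2)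
  rcases ha.mem_or_subset hn with h3 | h3
  swap
  · exact Cv.self hk (od_iff.2 (Tm.ofOrd hn)) (DInj.of_subset h3)
  by_cases hb : H57F.Bd (Order.succ k) n
  · have hu : Unc n := ⟨hn, fun z z1 z2 =>
      hb z z1 (Order.lt_succ_iff.2 (z2.trans (card_om.trans_le hk)))⟩
    obtain ⟨c, c1, c2⟩ := hs.cof n n hu subset_rfl (fun x hx => hu.succ hx) h1
    obtain ⟨d, d1, d2⟩ := hb _ sep_subset (Order.lt_succ_iff.2 h2)
    have hm := union_mem hn d1 h3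
    refine kp_step hk ha ho hs.sl ht t1 t2 y1 y2 y3 hu hb c1 c2 (hn.mem hm) (fun x hx => ?_)
      (ih' _ hm)
    have r0 := H46.rho_ord (hn.mem hx)
    rcases ha.mem_or_subset r0 with h4 | h4
    · exact fun z hz => mem_union.2 (Or.inl ((hn.mem d1).mem_trans hz (d2 _ (mem_sep.2
        ⟨r0.mem_of_subset_of_mem hn (H46.rho_subset (hn.mem hx)) hx, h4,
          H46.hodCard_rho (hn.mem hx)⟩))))
    · exact fun z hz => mem_union.2 (Or.inr (h4 hz))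
  · simp only [H57F.Bd, not_forall, not_exists, not_and] at hb
    obtain ⟨z, z1, z2, z3⟩ := hb
    refine Cv.union hk (Order.lt_succ_iff.1 z2) (fun b => insert b b)
      (fun b hb => (ih' b (z1 hb)).succ hk ho (hn.mem (z1 hb))) fun x hx => ?_
    obtain ⟨w, w1, w2⟩ := z3 x hx
    exact ⟨w, w1, mem_insert_iff.2 ((hn.mem hx).eq_or_mem_of_subset (hn.mem (z1 w1))
      (((hn.mem (z1 w1)).notMem_iff_subset (hn.mem hx)).1 w2))⟩

theorem Cvd.cv (ha : a.IsOrdinal) (h : Cvd g a X) : Cv (card g) a X := by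
  obtain ⟨u, u1, u2, u3⟩ := h
  have : Tm Set.univ On (fun _ => a) := Tm.ofOrd ha
  refine ⟨img (fun f => img (fun i => app f i) a) u, (card_img_le _ _).trans u1, fun W hW => ?_,
    fun x hx => ?_⟩
  · obtain ⟨f, hf, rfl⟩ := mem_img.1 hW
    have := hod_tm (u2 f hf).1
    have h1 : ∀ x ∈ img (fun i => app f i) a, _ := fun x hx =>
      leastBy_id (p := fun i => app f i = x) ha (mem_img.1 hx)
    exact ⟨od_iff.2 inferInstance, fun x => leastBy a (fun i => i) fun i => app f i = x,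
      Tm.leastBy a (fun i => i) fun x i => app f i = x, fun x hx => (h1 x hx).1,
      fun x hx z hz e => by rw [← (h1 x hx).2, ← (h1 z hz).2]; exact congrArg _ e⟩
  · obtain ⟨f, hf, i, hi⟩ := u3 x hx
    exact ⟨_, mem_img.2 ⟨f, hf, rfl⟩, mem_img.2
      ⟨i, (pair_mem_prod.1 ((u2 f hf).2.1 hi)).1, (u2 f hf).2.app_eq hi⟩⟩

theorem Cv.cvd (ha : a.IsOrdinal) (hn : n.IsOrdinal) (h : Cv (card g) a n) : Cvd g a n := by
  by_cases h0 : n = ∅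
  · exact ⟨∅, by rw [card_empty]; exact zero_le, fun f hf => absurd hf (notMem_empty f),
      fun x hx => absurd (h0 ▸ hx) (notMem_empty x)⟩
  obtain ⟨u, u1, u2, u3⟩ := h
  have : Tm Set.univ On (fun _ => n) := Tm.ofOrd hn
  have h1 : ∀ W ∈ u, ∃ f, (HOD Set.univ f ∧ IsFunc a n f) ∧ ∀ x ∈ n, x ∈ W → ∃ i, pair i x ∈ f :=
    fun W hW => by
      obtain ⟨e, e0, e1, e2⟩ := (u2 W hW).2
      have := od_iff.1 (u2 W hW).1
      have := Tm.one (C := Set.univ) (A := On) e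
      have h2 : ∀ x ∈ n, x ∈ W → (⋃₀ (n.sep fun z => z ∈ W ∧ e z = e x) : ZFSet.{u}) = x :=
        fun x hx hw => by
          rw [show (n.sep fun z => z ∈ W ∧ e z = e x) = {x} from ZFSet.ext fun z => by
            rw [mem_sep, mem_singleton]
            exact ⟨fun h => e2 z h.2.1 x hw h.2.2, fun e => e.symm ▸ ⟨hx, hw, rfl⟩⟩,
            sUnion_singleton]
      have h3 : ∀ i ∈ a, (⋃₀ (n.sep fun z => z ∈ W ∧ e z = i) : ZFSet.{u}) ∈ n := fun i _ => by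
        by_cases h3 : ∃ x ∈ n, x ∈ W ∧ e x = i
        · obtain ⟨x, x1, x2, rfl⟩ := h3
          rwa [h2 x x1 x2]
        · rw [show (n.sep fun z => z ∈ W ∧ e z = i) = ∅ from (eq_empty _).2 fun z hz =>
            h3 ⟨z, mem_sep.1 hz⟩, sUnion_empty]
          exact empty_mem_of_ne hn h0
      exact ⟨gr (fun i => ⋃₀ (n.sep fun z => z ∈ W ∧ e z = i)) a,
        ⟨hod_grA (hod_ord ha) _ fun i hi => hod_ord (hn.mem (h3 i hi)), isFunc_gr h3⟩,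
        fun x hx hw => ⟨e x, pair_mem_gr.2 ⟨e1 x hw, h2 x hx hw⟩⟩⟩
  choose! G g1 g2 using h1
  refine ⟨img G u, (card_img_le _ _).trans u1, fun f hf => ?_, fun x hx => ?_⟩
  · obtain ⟨W, hW, rfl⟩ := mem_img.1 hf
    exact g1 W hW
  · obtain ⟨W, w1, w2⟩ := u3 x hx
    exact ⟨_, mem_img.2 ⟨W, w1, rfl⟩, g2 W w1 x hx w2⟩

theorem kp (hg : ℵ₀ ≤ card g) (hs : SL a) (ha : a.IsOrdinal) (ha' : om ⊆ a)
    (hL : Cvd g a (Lev a)) (hn : n.IsOrdinal) (n1 : card n ≤ card a)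
    (h : card (n.sep fun z => a ∈ z ∧ H46.HODCard z) ≤ card g) : Cvd g a n :=
  (kp_core hg ha ha' hs (hL.cv ha) hn n1 h).cvd ha hn

end Pool.Agent.MP_ecfd11_lc.H65S
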