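import Pool.Agent.MP_ecfd11_lc.H65S.Base

/-!
Sets computed from collapses are in HOD.
-/

set_option synthInstance.maxSize 4000

namespace Pool.Agent.MP_ecfd11_lc.H65S

open Pool.Agent.MP_ecfd11_lc.H20 Pool.Agent.MP_ecfd11_lc.H13X Pool.Agent.MP_ecfd11_lc.H3U
  Pool.Agent.MP_ecfd11_lc.H3E

universe u

open ZFSet Cardinal Function Filter

variable {g a X Q u v w τ : ZFSet.{u}}

theorem canonK_bdd (hb : BdK g a) (hv : card v ≤ card g) (F : ZFSet.{u} → ZFSet.{u})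
    (h : ∀ f ∈ v, F f ∈ a) : ∃ e ∈ a, ∀ f ∈ v, F f ∈ e := by
  obtain ⟨e, h1, h2⟩ := hb (img F v) (fun z hz => by
    obtain ⟨f, hf, rfl⟩ := mem_img.1 hz
    exact h f hf) ((card_img_le _ _).trans hv)
  exact ⟨e, h1, fun f hf => h2 _ (mem_img.2 ⟨f, hf, rfl⟩)⟩

theorem canonK (ha : Unc a) (hb : BdK g a) (hu : CovK g a (Lev a) u) (hv : CovK g a X v)
    (hw : CovK g a X w) :
    ∃ e ∈ a, ∀ b ∈ a, e ∈ b → Clo a u b → ∀ x, InP v b x → InP w b x := by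
  have h1 : ∀ f ∈ v, ∀ f' ∈ w, ∃ k ∈ a, ∃ h, (∃ G, G ∈ u ∧ pair k h ∈ G) ∧ IsFunc a a h ∧
      ∀ i ∈ a, (∃ j ∈ a, app f' j = app f i) → app f' (app h i) = app f i := fun f hf f' hf' => by
    obtain ⟨h, h1, h2⟩ := canon_fun ha (hv.2.1 f hf).1 (hw.2.1 f' hf').1
    obtain ⟨G, hG, k, hk⟩ := hu.2.2 h h1
    exact ⟨k, (pair_mem_prod.1 ((hu.2.1 G hG).2.1 hk)).1, h, ⟨G, hG, hk⟩, h2⟩
  choose! k k1 k2 using h1
  choose! E e1 e2 using fun f (hf : f ∈ v) => canonK_bdd hb hw.1 (k f) (k1 f hf)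
  obtain ⟨e, he, e3⟩ := canonK_bdd hb hv.1 E e1
  refine ⟨e, he, fun b hb' heb hc x ⟨f, hf, i, hi, hx⟩ => ?_⟩
  have bo := ha.1.mem hb'
  have g1 := (hv.2.1 f hf).2
  obtain ⟨hia, hxX⟩ := pair_mem_prod.1 (g1.1 hx)
  obtain ⟨f', hf', j, hj⟩ := hw.2.2 x hxX
  have g2 := (hw.2.1 f' hf').2
  obtain ⟨h, ⟨G, hG, h2⟩, h3, h4⟩ := k2 f hf f' hf'
  have h5 : k f f' ∈ b := bo.mem_trans (e2 f hf f' hf') (bo.mem_trans (e3 f hf) heb)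
  have h6 := hc h ⟨G, hG, _, h5, h2⟩ h3 i hi _ (h3.app_mem hia)
  have h7 := h4 i hia ⟨j, (pair_mem_prod.1 (g2.1 hj)).1, (g2.app_eq hj).trans (g1.app_eq hx).symm⟩
  refine ⟨f', hf', _, h6, ?_⟩
  have h8 := g2.app_mem (h3.app_mem' hia)
  rwa [h7, g1.app_eq hx] at h8

theorem lemAK_one {u' v' : ZFSet.{u}} (ha : Unc a) (hb : BdK g a) (hu : CovK g a (Lev a) u)
    (hv : CovK g a Q v) (hu' : CovK g a (Lev a) u') (hv' : CovK g a Q v') :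
    ∃ e ∈ a, ∀ b ∈ a, e ∈ b → ∀ σ h, InTK a u' v' σ b h → InTK a u v σ b h := by
  obtain ⟨e1, a1, b1⟩ := canonK ha hb hu' hu hu'
  obtain ⟨e2, a2, b2⟩ := canonK ha hb hu' hv' hv
  obtain ⟨e3, a3, b3⟩ := canonK ha hb hu' hv hv'
  obtain ⟨d, g1, g2⟩ := lemA_bd ha a1 a2
  obtain ⟨e, c1, c2⟩ := lemA_bd ha g1 a3
  refine ⟨e, c1, fun b hb' he σ h ⟨t1, p, t2, t3⟩ => ?_⟩
  obtain ⟨d1, d2⟩ := c2 b hb' he
  obtain ⟨d3, d4⟩ := g2 b hb' d1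
  have k1 := b1 b hb' d3 t1
  have k2 := b2 b hb' d4 t1
  have k3 := b3 b hb' d2 t1
  refine ⟨fun f hf => t1 f (k1 f hf), p, fun y hy z => (t2 y (k3 y hy) z).trans ?_,
    fun x y hx hy => t3 x y (k1 x hx) (k3 y hy)⟩
  exact exists_congr fun s => and_congr_right fun _ => and_congr_left fun _ => ⟨k2 s, k3 s⟩

theorem lemAK_ind {u' v' : ZFSet.{u}} (ha : Unc a) (hb : BdK g a) (hu : CovK g a (Lev a) u)
    (hv : CovK g a Q v) (hu' : CovK g a (Lev a) u') (hv' : CovK g a Q v') :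
    ∃ e ∈ a, ∀ b ∈ a, e ∈ b → ∀ σ h, InTK a u' v' σ b h ↔ InTK a u v σ b h := by
  obtain ⟨e1, a1, b1⟩ := lemAK_one ha hb hu hv hu' hv'
  obtain ⟨e2, a2, b2⟩ := lemAK_one ha hb hu' hv' hu hv
  obtain ⟨e, c1, c2⟩ := lemA_bd ha a1 a2
  exact ⟨e, c1, fun b hb' he σ h =>
    ⟨b1 b hb' (c2 b hb' he).1 σ h, b2 b hb' (c2 b hb' he).2 σ h⟩⟩

theorem lemAK_inP {x : ZFSet.{u}} (hv : CovK g a X v) (hx : x ∈ X) :
    ∃ i ∈ a, ∀ b, i ∈ b → InP v b x := by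
  obtain ⟨f, g1, i, g2⟩ := hv.2.2 x hx
  exact ⟨i, (pair_mem_prod.1 ((hv.2.1 f g1).2.1 g2)).1, fun b hb => ⟨f, g1, i, hb, g2⟩⟩

theorem lemAK_min (K : ZFSet.{u} → ZFSet.{u} → ZFSet.{u}) {p : ZFSet.{u} → ZFSet.{u} → Prop}
    (hp : ∃ x y, p x y) : ∃ x y, p x y ∧ ∀ z w, p z w → K z w ∉ K x y := by
  obtain ⟨x, y, h⟩ := hp
  obtain ⟨z, h1, h2⟩ := (InvImage.wf (fun z : ZFSet.{u} × ZFSet.{u} => K z.1 z.2) mem_wf).has_min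
    {z | p z.1 z.2} ⟨(x, y), h⟩
  exact ⟨z.1, z.2, h1, fun s t h3 => h2 (s, t) h3⟩

theorem lemAK_lt {K : ZFSet.{u} → ZFSet.{u} → ZFSet.{u}} {p q : ZFSet.{u} → ZFSet.{u} → Prop}
    {b h c l : ZFSet.{u}} (op : ∀ x y, p x y → (K x y).IsOrdinal)
    (oq : ∀ x y, q x y → (K x y).IsOrdinal) (hp : p b h ∧ ∀ z w, p z w → K z w ∉ K b h)
    (hq : q c l ∧ ∀ z w, q z w → K z w ∉ K c l) :
    (∃ x, ∃ y, p x y ∧ ∀ z, ∀ w, q z w → K x y ∈ K z w) ↔ K b h ∈ K c l := by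
  constructor
  · rintro ⟨x, y, h1, h2⟩
    rcases (op b h hp.1).mem_trichotomous (op x y h1) with e | e | e
    exacts [(oq c l hq.1).mem_trans e (h2 c l hq.1), e ▸ h2 c l hq.1, absurd e (hp.2 x y h1)]
  · refine fun h0 => ⟨b, h, hp.1, fun z w h1 => ?_⟩
    rcases (oq c l hq.1).mem_trichotomous (oq z w h1) with e | e | e
    exacts [(oq z w h1).mem_trans h0 e, e ▸ h0, absurd e (hq.2 z w h1)]

theorem lemAK (hs : SL a) (ha : Unc a) (hg : g.IsOrdinal) (hb : BdK g a) (hQ : HOD Set.univ Q)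
    (hu : CovK g a (Lev a) u) (hv : CovK g a Q v) (h1 : τ ⊆ prod (Lev a) Q)
    (h2 : Apx a (prod (Lev a) Q) τ)
    (h3 : ∀ i ∈ a, ∃ b ∈ a, i ∈ b ∧ ∃ h ∈ low a, InTK a u v τ b h) : HOD Set.univ τ := by
  obtain ⟨c, c1, c2⟩ := hs.cof a a ha subset_rfl (fun x hx => ha.succ hx) le_rfl
  have hZ := hod_prod (hod_Lev ha.1) hQ
  have hD := hod_prod (hod_ord ha.1) ((mem_Lev ha.1).1 (low_lev ha.1)).2
  obtain ⟨m, mo, k, k0, k1, k2⟩ := od_rank (prod a (low a)) fun x hx => (hD.mem hx).self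
  have := Tm.one (C := Set.univ) (A := On) k
  have : Tm Set.univ On (fun _ => a) := Tm.ofOrd ha.1
  have : Tm Set.univ On (fun _ => g) := Tm.ofOrd hg
  have := tm_low ha.1
  have := hod_tm (hod_Lev ha.1)
  have := hod_tm hQ
  obtain ⟨F, hF⟩ : ∃ F : ZFSet.{u}, F = (powerset (prod (Lev a) Q)).sep fun σ =>
      Apx a (prod (Lev a) Q) σ ∧ ∃ u', CovK g a (Lev a) u' ∧ ∃ v', CovK g a Q v' ∧
        ∀ i, i ∈ a → ∃ b, b ∈ a ∧ i ∈ b ∧ ∃ h, h ∈ low a ∧ InTK a u' v' σ b h := ⟨_, rfl⟩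
  have f0 : OD Set.univ F := od_iff.2 (hF ▸ inferInstance)
  have f1 : ∀ σ ∈ F, σ ⊆ prod (Lev a) Q ∧ Apx a (prod (Lev a) Q) σ := fun σ h => by
    rw [hF] at h
    exact ⟨mem_powerset.1 (mem_sep.1 h).1, (mem_sep.1 h).2.1⟩
  have f2 : ∀ σ ∈ F, ∀ i ∈ a, ∃ b h, b ∈ a ∧ h ∈ low a ∧ i ∈ b ∧ InTK a u v σ b h :=
    fun σ h i hi => by
      rw [hF] at h
      obtain ⟨-, -, u', hu', v', hv', h⟩ := mem_sep.1 h
      obtain ⟨e, e1, e2⟩ := lemAK_ind ha hb hu hv hu' hv'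
      obtain ⟨d, g1, g2⟩ := lemA_bd ha hi e1
      obtain ⟨b, b1, b2, l, b3, b4⟩ := h d g1
      exact ⟨b, l, b1, b3, (g2 b b1 b2).1, (e2 b b1 (g2 b b1 b2).2 σ l).1 b4⟩
  choose! B H f3 using fun σ (h : σ ∈ F) i (hi : i ∈ a) =>
    lemAK_min (fun x y => k (pair x y)) (f2 σ h i hi)
  have ko : ∀ σ i x y, x ∈ a ∧ y ∈ low a ∧ i ∈ x ∧ InTK a u v σ x y → (k (pair x y)).IsOrdinal :=
    fun σ i x y h => mo.mem (k1 _ (pair_mem_prod.2 ⟨h.1, h.2.1⟩))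
  obtain ⟨R, hR⟩ : ∃ R : ZFSet.{u} → ZFSet.{u} → Prop, R = fun ρ σ =>
      ∃ u', CovK g a (Lev a) u' ∧ ∃ v', CovK g a Q v' ∧ Null a (a.sep fun i => ¬ ∃ x, ∃ y,
        (x ∈ a ∧ y ∈ low a ∧ i ∈ x ∧ InTK a u' v' ρ x y) ∧ ∀ z, ∀ w,
          (z ∈ a ∧ w ∈ low a ∧ i ∈ z ∧ InTK a u' v' σ z w) → k (pair x y) ∈ k (pair z w)) :=
    ⟨_, rfl⟩
  have : Df Set.univ On (fun v => R (v 0) (v 1)) := by
    rw [hR]
    infer_instance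
  refine min_fam hs.sl hs.unc ha c1 c2 hZ f0 f1 (fun σ i => k (pair (B σ i) (H σ i)))
    (fun σ h i hi => ko σ i _ _ (f3 σ h i hi).1) (fun ρ hρ σ hσ hne => ?_) R
    (fun ρ hρ σ hσ => ?_) τ (hF ▸ mem_sep.2 ⟨mem_powerset.2 h1, h2, u, hu, v, hv, h3⟩)
  · obtain ⟨x, y, hx, hy, h⟩ : ∃ x y, x ∈ Lev a ∧ y ∈ Q ∧ ¬ (pair x y ∈ ρ ↔ pair x y ∈ σ) := by
      by_contra h
      refine hne (ZFSet.ext fun z => ⟨fun hz => ?_, fun hz => ?_⟩)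
      · obtain ⟨x, hx, y, hy, rfl⟩ := mem_prod.1 ((f1 ρ hρ).1 hz)
        exact by_contra fun h' => h ⟨x, y, hx, hy, fun e => h' (e.1 hz)⟩
      · obtain ⟨x, hx, y, hy, rfl⟩ := mem_prod.1 ((f1 σ hσ).1 hz)
        exact by_contra fun h' => h ⟨x, y, hx, hy, fun e => h' (e.2 hz)⟩
    obtain ⟨i, i1, i2⟩ := lemAK_inP hu hx
    obtain ⟨j, j1, j2⟩ := lemAK_inP hv hy
    filter_upwards [ev_above (S := a) ha i1, ev_above (S := a) ha j1, ev_mem (S := a) ha]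
      with n n1 n2 n3 e
    obtain ⟨⟨p1, p2, p3, -, p, p4, p5⟩, -⟩ := f3 ρ hρ n n3.1
    obtain ⟨⟨q1, q2, -, -, q, q4, q5⟩, -⟩ := f3 σ hσ n n3.1
    obtain ⟨e1, e2⟩ := pair_inj.1
      (k2 _ (pair_mem_prod.2 ⟨p1, p2⟩) _ (pair_mem_prod.2 ⟨q1, q2⟩) e)
    rw [← e1] at q4 q5
    rw [← e2] at q5
    have x1 := i2 _ ((ha.1.mem p1).mem_trans n1 p3)
    have y1 := j2 _ ((ha.1.mem p1).mem_trans n2 p3)
    refine h ((p5 x y x1 y1).trans ?_)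
    rw [p4.unique q4 y y1]
    exact (q5 x y x1 y1).symm
  · have lt := fun n (hn : n ∈ a) => lemAK_lt (K := fun x y => k (pair x y)) (ko ρ n) (ko σ n)
      (f3 ρ hρ n hn) (f3 σ hσ n hn)
    rw [hR]
    constructor
    · rintro ⟨u', hu', v', hv', h⟩
      obtain ⟨e, e1, e2⟩ := lemAK_ind ha hb hu hv hu' hv'
      filter_upwards [(ev_iff (S := a) ha).2 h, ev_above (S := a) ha e1, ev_mem (S := a) ha]
        with n n1 n2 n3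
      obtain ⟨x, y, ⟨b1, b2, b3, b4⟩, b5⟩ := n1
      exact (lt n n3.1).1 ⟨x, y,
        ⟨b1, b2, b3, (e2 x b1 ((ha.1.mem b1).mem_trans n2 b3) ρ y).1 b4⟩,
        fun z w ⟨d1, d2, d3, d4⟩ =>
          b5 z w ⟨d1, d2, d3, (e2 z d1 ((ha.1.mem d1).mem_trans n2 d3) σ w).2 d4⟩⟩
    · refine fun h => ⟨u, hu, v, hv, (ev_iff (S := a) ha).1 ?_⟩
      filter_upwards [h, ev_mem (S := a) ha] with n n1 n3
      exact (lt n n3.1).2 n1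

end Pool.Agent.MP_ecfd11_lc.H65S
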