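import Pool.Agent.MP_ecfd11_lc.H65S.Base

/-!
Reflection of the long extenders.
-/

set_option synthInstance.maxSize 4000

namespace Pool.Agent.MP_ecfd11_lc.H65S

open Pool.Agent.MP_ecfd11_lc.H20 Pool.Agent.MP_ecfd11_lc.H13X Pool.Agent.MP_ecfd11_lc.H3U
  Pool.Agent.MP_ecfd11_lc.H3E

universe u

open ZFSet Cardinal Function Filter

variable {g t a b : ZFSet.{u}} {B : ZFSet.{u} → ZFSet.{u}} {κ : Type u}

theorem fr_constK {ι : Type u} (hι : #ι ≤ card g) (ht : Regular Set.univ t)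
    (hw : ∀ e ∈ t, card e ^ card g < card t) (p : (ι → ZFSet.{u}) → ZFSet.{u} → Prop)
    (h : ∃ᶠ a in cf t (unc_of_regular ht), BdK g a ∧ ∃ j, (∀ k, j k ∈ a) ∧ p j a) :
    ∃ j, ∃ᶠ a in cf t (unc_of_regular ht), (∀ k, j k ∈ a) ∧ p j a := by
  by_contra h0
  simp only [not_exists, not_frequently] at h0
  have key : ∀ e ∈ t, ∀ᶠ L in cf t (unc_of_regular ht), ∀ q : ι → Shrink.{u} e,
      ¬ ((∀ k, ((equivShrink e).symm (q k)).1 ∈ L) ∧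
        p (fun k => ((equivShrink e).symm (q k)).1) L) := fun e he =>
    ev_type ht (by
      have h1 : #(ι → Shrink.{u} e) = card e ^ #ι := (power_def _ _).symm
      rw [h1]
      by_cases h2 : card e = 0
      · rw [h2]
        exact (zero_power_le _).trans_lt (one_lt_aleph0.trans ht.aleph0_lt)
      · exact (power_le_power_left h2 hι).trans_lt (hw e he)) fun q => h0 _
  obtain ⟨L, ⟨hu, j, j1, j2⟩, hL⟩ := (h.and_eventually (ev_diag ht key)).exists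
  obtain ⟨c, c1, c2⟩ := hu (range j)
    (fun x hx => by obtain ⟨n, rfl⟩ := mem_range.1 hx; exact j1 n)
    (by
      have h1 := lift_card_range_le (f := j)
      rw [lift_id, lift_id] at h1
      exact h1.trans hι)
  have c3 : ∀ k, j k ∈ c := fun k => c2 _ (mem_range.2 ⟨k, rfl⟩)
  exact hL c c1 (fun k => equivShrink c ⟨j k, c3 k⟩) (by simpa using ⟨j1, j2⟩)

/-- The families `U`, `V` of functions on `a` are coded by the indices `j`. -/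
structure CodedK (B : ZFSet.{u} → ZFSet.{u}) (a Q G : ZFSet.{u}) (U V : κ → ZFSet.{u})
    (j : κ ⊕ (κ × κ) ⊕ (κ × κ) → ZFSet.{u}) : Prop where
  u1 : ∀ m, IsFunc a (Lev a) (U m)
  u2 : ∀ x ∈ Lev a, ∃ m i, pair i x ∈ U m
  v1 : ∀ k, IsFunc a Q (V k)
  v2 : ∀ y ∈ Q, ∃ k i, pair i y ∈ V k
  tr : Q.IsTransitive
  c1 : ∀ m, ∀ i ∈ a, ∀ x ∈ a, app (U m) i = B x ∩ vC Set.univ a →
    ∀ z, z ∈ B x ↔ pair i z ∈ B (j (.inl m))
  c2 : ∀ k l, ∀ i ∈ a, ∀ i' ∈ a,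
    app (V l) i' ∈ app (V k) i ↔ pair i i' ∈ B (j (.inr (.inl (k, l))))
  c3 : ∀ k m, ∀ i ∈ a, ∀ i' ∈ a,
    pair i' (app G (app (V k) i)) ∈ B (j (.inl m)) ↔ pair i i' ∈ B (j (.inr (.inr (k, m))))

theorem exists_codedK_sec (h : Good t B a) {W G f : ZFSet.{u}} (hW : HOD Set.univ W)
    (hG : HOD Set.univ G) (hf : HOD Set.univ f) :
    ∃ x ∈ a, ∀ i ∈ a, ∀ i' ∈ a, pair i' (app G (app f i)) ∈ W ↔ pair i i' ∈ B x := by
  have := hod_tm hW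
  have := hod_tm hG
  have := hod_tm hf
  have : Tm Set.univ On (fun _ => a) := Tm.ofOrd h.ord
  obtain ⟨x, hx, e⟩ := exists_coded_rel h
    (S := (prod a a).sep fun p => pair (snd p) (app G (app f (fst p))) ∈ W) sep_subset
    (od_iff.2 inferInstance)
  refine ⟨x, hx, fun i hi i' hi' => ?_⟩
  rw [← e i hi i' hi', mem_sep, pair_mem_prod, fst_pair, snd_pair]
  exact ⟨fun h' => ⟨⟨hi, hi'⟩, h'⟩, fun h' => h'.2⟩

theorem exists_codedK (h : Good t B a) {Q G : ZFSet.{u}} (hG : HOD Set.univ G)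
    {U V : κ → ZFSet.{u}}
    (u0 : ∀ m, HOD Set.univ (U m)) (u1 : ∀ m, IsFunc a (Lev a) (U m))
    (u2 : ∀ x ∈ Lev a, ∃ m i, pair i x ∈ U m) (v0 : ∀ k, HOD Set.univ (V k))
    (v1 : ∀ k, IsFunc a Q (V k)) (v2 : ∀ y ∈ Q, ∃ k i, pair i y ∈ V k) (tr : Q.IsTransitive) :
    ∃ j, (∀ k, j k ∈ a) ∧ CodedK B a Q G U V j := by
  choose w w1 w2 using fun m => h.code (u0 m) (u1 m)
  choose r r1 r2 using fun q : κ × κ => exists_coded_mem h (v0 q.2) (v0 q.1)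
  choose o o1 o2 using fun q : κ × κ => exists_codedK_sec h (h.hod _ (w1 q.2)) hG (v0 q.1)
  refine ⟨Sum.elim w (Sum.elim r o), ?_, u1, u2, v1, v2, tr, w2, fun k m => r2 (k, m),
    fun k m => o2 (k, m)⟩
  rintro (m | q | q)
  · exact w1 m
  · exact r1 q
  · exact o1 q

theorem reflectK_inP {X u x : ZFSet.{u}} {U : κ → ZFSet.{u}} (hs : b ⊆ a)
    (u1 : ∀ m, IsFunc a X (U m)) (hu : ∀ f, f ∈ u ↔ ∃ m, U m = f) :
    InP u b x ↔ ∃ m, ∃ i ∈ b, app (U m) i = x := by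
  constructor
  · rintro ⟨f, hf, i, hi, hp⟩
    obtain ⟨m, rfl⟩ := (hu f).1 hf
    exact ⟨m, i, hi, (reflect_app (u1 m) hp).2⟩
  · rintro ⟨m, i, hi, rfl⟩
    exact ⟨U m, (hu _).2 ⟨m, rfl⟩, i, hi, (u1 m).app_mem (hs hi)⟩

theorem reflectK_app (ha : a.IsOrdinal) {G y : ZFSet.{u}} (hG : G ∈ low a) :
    app G y ∈ vC Set.univ a := by
  refine (mem_vC_ord ha).2 (lt_of_le_of_lt (rank_le_iff.2 fun z hz => ?_) ((mem_low ha).1 hG).1)
  obtain ⟨w, hw, hz⟩ := mem_sUnion.1 hz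
  exact (rank_lt_of_mem hz).trans ((rank_lt_of_mem (show w ∈ ({y, w} : ZFSet.{u}) by simp)).trans
    ((rank_lt_of_mem (show {y, w} ∈ pair y w by simp [pair])).trans
      (rank_lt_of_mem (mem_sep.1 hw).2)))

section
variable {Q Q' G G' : ZFSet.{u}} {U V U' V' : κ → ZFSet.{u}}
  {j : κ ⊕ (κ × κ) ⊕ (κ × κ) → ZFSet.{u}}

theorem reflectK_key (ha : Good t B a) (hb : Good t B b) (hs : b ⊆ a)
    (h1 : CodedK B a Q G U V j) (h2 : CodedK B b Q' G' U' V' j) (m : κ) {i : ZFSet.{u}}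
    (hi : i ∈ b) : ∃ x ∈ b, app (U m) i = B x ∩ vC Set.univ a ∧
      ∀ z, z ∈ B x ↔ pair i z ∈ B (j (.inl m)) := by
  obtain ⟨x, hx, e⟩ := hb.tr _ ((h2.u1 m).app_mem' hi)
  obtain ⟨y, hy, e'⟩ := ha.tr _ ((h1.u1 m).app_mem' (hs hi))
  have k := h2.c1 m i hi x hx e
  have k' := h1.c1 m i (hs hi) y hy e'
  have e2 : B y = B x := ZFSet.ext fun z => (k' z).trans (k z).symm
  exact ⟨x, hx, e2 ▸ e', k⟩

theorem reflectK_clp (hs : b ⊆ a) (h1 : CodedK B a Q G U V j) (h2 : CodedK B b Q' G' U' V' j)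
    {v : ZFSet.{u}} (hv : ∀ f, f ∈ v ↔ ∃ k, V k = f) :
    ∃ p, Clp v b p ∧ ∀ k, ∀ i ∈ b, app p (app (V k) i) = app (V' k) i := by
  have e1 : ∀ k, ∀ i ∈ b, ∀ l, ∀ n ∈ b,
      app (V l) n ∈ app (V k) i ↔ app (V' l) n ∈ app (V' k) i := fun k i hi l n hn =>
    (h1.c2 k l i (hs hi) n (hs hn)).trans (h2.c2 k l i hi n hn).symm
  have e2 : ∀ k, ∀ i ∈ b, ∀ z ∈ app (V' k) i, z ∈ Q' ∧ ∃ l, ∃ n ∈ b, app (V' l) n = z :=
    fun k i hi z hz => by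
      have hq : z ∈ Q' := h2.tr.mem_trans hz ((h2.v1 k).app_mem' hi)
      obtain ⟨l, n, hp⟩ := h2.v2 z hq
      exact ⟨hq, l, n, reflect_app (h2.v1 l) hp⟩
  have e3 : ∀ k, ∀ i ∈ b, app (gr (fun y => Q'.sep fun z =>
      ∃ l, ∃ n ∈ b, app (V l) n = y ∧ z ∈ app (V' l) n) Q) (app (V k) i) = app (V' k) i :=
    fun k i hi => by
      rw [app_gr ((h1.v1 k).app_mem' (hs hi))]
      refine ZFSet.ext fun z => ?_
      rw [mem_sep]
      refine ⟨?_, fun hz => ⟨(e2 k i hi z hz).1, k, i, hi, rfl, hz⟩⟩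
      rintro ⟨-, l, n, hn, e, hz⟩
      obtain ⟨-, r, s, hs', rfl⟩ := e2 l n hn z hz
      exact (e1 k i hi r s hs').1 (e ▸ (e1 l n hn r s hs').2 hz)
  refine ⟨_, fun y hy w => ?_, e3⟩
  obtain ⟨k, i, hi, rfl⟩ := (reflectK_inP hs h1.v1 hv).1 hy
  rw [e3 k i hi]
  constructor
  · intro hw
    obtain ⟨-, l, n, hn, rfl⟩ := e2 k i hi w hw
    exact ⟨app (V l) n, (e1 k i hi l n hn).2 hw, (reflectK_inP hs h1.v1 hv).2 ⟨l, n, hn, rfl⟩,
      e3 l n hn⟩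
  · rintro ⟨z, z1, z2, rfl⟩
    obtain ⟨l, n, hn, rfl⟩ := (reflectK_inP hs h1.v1 hv).1 z2
    rw [e3 l n hn]
    exact (e1 k i hi l n hn).1 z1

end

theorem reflectK (ha : Good t B a) (hb : Good t B b) (hba : b ∈ a) {Q Q' G G' : ZFSet.{u}}
    (hG : G' ∈ low a) {U V U' V' : κ → ZFSet.{u}}
    {j : κ ⊕ (κ × κ) ⊕ (κ × κ) → ZFSet.{u}} (h1 : CodedK B a Q G U V j)
    (h2 : CodedK B b Q' G' U' V' j) {u v : ZFSet.{u}} (hu : ∀ f, f ∈ u ↔ ∃ m, U m = f)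
    (hv : ∀ f, f ∈ v ↔ ∃ k, V k = f) : InTK a u v (ExQ B a Q G) b G' := by
  have hs : b ⊆ a := ha.ord.subset_of_mem hba
  obtain ⟨p, p1, p2⟩ := reflectK_clp hs h1 h2 hv
  refine ⟨fun h hh hf i hi z hz => ?_, p, p1, fun x y hx hy => ?_⟩
  · obtain ⟨m, n, hn, rfl⟩ := (reflectK_inP hs h1.u1 hu).1 hh
    obtain ⟨x, hx, e, -⟩ := reflectK_key ha hb hs h1 h2 m hn
    have z1 : z ∈ a := (pair_mem_prod.1 (hf.1 hz)).2
    obtain ⟨w, hw, w1⟩ := hb.s1 x hx i hi ⟨z, ha.sub z1, (mem_inter.1 (e ▸ hz)).1⟩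
    have w2 : pair i w ∈ app (U m) n := e ▸ mem_inter.2 ⟨w1,
      (pair_vC ha.ord ha.lim).2 ⟨H3E.mem_vC ha.ord (hs hi), H3E.mem_vC ha.ord (hs hw)⟩⟩
    exact (hf.2 i (hs hi)).unique w2 hz ▸ hw
  · obtain ⟨m, n, hn, rfl⟩ := (reflectK_inP hs h1.u1 hu).1 hx
    obtain ⟨k, i, hi, rfl⟩ := (reflectK_inP hs h1.v1 hv).1 hy
    obtain ⟨x, hx, e, c⟩ := reflectK_key ha hb hs h1 h2 m hn
    have e1 : app G (app (V k) i) ∈ B x ↔ app G' (app (V' k) i) ∈ B x :=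
      ((c _).trans (h1.c3 k m i (hs hi) n (hs hn))).trans
        ((c _).trans (h2.c3 k m i hi n hn)).symm
    rw [p2 k i hi, mem_ExQ]
    constructor
    · rintro ⟨-, -, w, hw, w1, w2⟩
      rw [ha.s0 w hw x (hs hx) (w1.symm.trans e)] at w2
      exact e ▸ mem_inter.2 ⟨e1.1 w2, reflectK_app ha.ord hG⟩
    · intro h
      exact ⟨(h1.u1 m).app_mem' (hs hn), (h1.v1 k).app_mem' (hs hi), x, hs hx, e,
        e1.2 (mem_inter.1 (e ▸ h)).1⟩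

theorem realK_enum {w : ZFSet.{u}} (h1 : card w ≤ card g) (h2 : ∃ f, f ∈ w) :
    ∃ U : Shrink.{u} g → ZFSet.{u}, ∀ f, f ∈ w ↔ ∃ m, U m = f := by
  classical
  obtain ⟨f0, h2⟩ := h2
  obtain ⟨F, hF⟩ := exists_surj_of_card_le h1
  refine ⟨fun m => if F ((equivShrink g).symm m).1 ∈ w then F ((equivShrink g).symm m).1 else f0,
    fun f => ⟨fun hf => ?_, ?_⟩⟩
  · obtain ⟨x, hx, rfl⟩ := hF f hf
    exact ⟨equivShrink g ⟨x, hx⟩, by simp [hf]⟩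
  · rintro ⟨m, rfl⟩
    dsimp only
    split_ifs with h
    exacts [h, h2]

theorem realK (hg : ℵ₀ ≤ card g) (ht : Regular Set.univ t)
    (hw : ∀ e ∈ t, card e ^ card g < card t)
    (h : ∀ᶠ L in cf t (unc_of_regular ht), Good t B L) :
    ∀ᶠ a in cf t (unc_of_regular ht), BdK g a → RealK g t B a := by
  by_contra h0
  have hι : #(Shrink.{u} g ⊕ (Shrink.{u} g × Shrink.{u} g) ⊕ (Shrink.{u} g × Shrink.{u} g)) ≤
      card g := by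
    have e : #(Shrink.{u} g) = card g := rfl
    simp only [mk_sum, mk_prod, lift_id, e, mul_eq_self hg, add_eq_self hg, le_refl]
  obtain ⟨j, hj⟩ := fr_constK hι ht hw
    (fun j a => Good t B a ∧ ∃ (U V : Shrink.{u} g → ZFSet.{u}) (u v Q G : ZFSet.{u}),
      G ∈ low t ∧ CodedK B a Q G U V j ∧
      (∀ f, f ∈ u ↔ ∃ m, U m = f) ∧ (∀ f, f ∈ v ↔ ∃ k, V k = f) ∧
      ∃ i ∈ a, ∀ b ∈ a, i ∈ b → ∀ h ∈ low a, ¬ InTK a u v (ExQ B a Q G) b h)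
    (((not_eventually.1 h0).and_eventually h).mono fun a ⟨h1, ha⟩ => by
      obtain ⟨hu, h2⟩ := Classical.not_imp.1 h1
      simp only [RealK, not_forall, not_exists, not_and] at h2
      obtain ⟨u, v, Q, G, c1, c2, ⟨y, c3⟩, c4, c6, i, hi, c5⟩ := h2
      obtain ⟨U, hU⟩ := realK_enum c1.1 ((c1.2.2 _ (low_lev ha.ord)).imp fun _ h => h.1)
      obtain ⟨V, hV⟩ := realK_enum c4.1 ((c4.2.2 _ c3).imp fun _ h => h.1)
      have u0 := fun m => c1.2.1 _ ((hU _).2 ⟨m, rfl⟩)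
      have v0 := fun m => c4.2.1 _ ((hV _).2 ⟨m, rfl⟩)
      obtain ⟨j, j1, j2⟩ := exists_codedK ha ((mem_low ht.1).1 c6).2 (fun m => (u0 m).1)
        (fun m => (u0 m).2)
        (fun x hx => by
          obtain ⟨f, g1, g2⟩ := c1.2.2 x hx
          obtain ⟨m, rfl⟩ := (hU f).1 g1
          exact ⟨m, g2⟩) (fun k => (v0 k).1) (fun k => (v0 k).2)
        (fun x hx => by
          obtain ⟨f, g1, g2⟩ := c4.2.2 x hx
          obtain ⟨m, rfl⟩ := (hV f).1 g1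
          exact ⟨m, g2⟩) c2
      exact ⟨hu, j, j1, ha, U, V, u, v, Q, G, c6, j2, hU, hV, i, hi, c5⟩)
  have hu := unc_of_regular ht
  have key : ∀ᶠ a in cf t (unc_of_regular ht), ∀ i ∈ a, ∃ b ∈ a, i ∈ b ∧ Good t B b ∧
      ∃ (U V : Shrink.{u} g → ZFSet.{u}) (Q G : ZFSet.{u}),
        G ∈ low a ∧ CodedK B b Q G U V j := by
    refine ev_diag ht (p := fun i a => ∃ b ∈ a, i ∈ b ∧ Good t B b ∧
      ∃ (U V : Shrink.{u} g → ZFSet.{u}) (Q G : ZFSet.{u}),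
        G ∈ low a ∧ CodedK B b Q G U V j) fun i hi => ?_
    obtain ⟨b, ⟨-, hb, U, V, -, -, Q, G, b1, b2, -⟩, b3, b4⟩ :=
      (hj.and_eventually ((ev_above hu hi).and (ev_mem hu))).exists
    obtain ⟨g1, g2⟩ := (mem_low ht.1).1 b1
    obtain ⟨c, c1, c2⟩ := exists_level ht.1 (fun b hb => hu.succ hb) g1
    filter_upwards [ev_above (S := t) hu b4.2, ev_above (S := t) hu c1, ev_mem (S := t) hu]
      with a a1 a2 a3
    exact ⟨b, a1, b3, hb, U, V, Q, G,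
      (mem_low (ht.1.mem a3.2)).2 ⟨c2.trans (rank_lt_of_mem a2), g2⟩, b2⟩
  obtain ⟨a, ⟨-, ha, U, V, u, v, Q, G, -, a1, a2, a3, i, hi, a4⟩, h1⟩ :=
    (hj.and_eventually key).exists
  obtain ⟨b, b1, b2, hb, U', V', Q', G', b3, b4⟩ := h1 i hi
  exact a4 b b1 b2 G' b3 (reflectK ha hb b1 b3 a1 b4 a2 a3)

end Pool.Agent.MP_ecfd11_lc.H65S
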