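import Pool.Agent.MP_ecfd11_lc.H65S.AM
import Pool.Agent.MP_ecfd11_lc.H65S.LemA
import Pool.Agent.MP_ecfd11_lc.H65S.Real
import Pool.Agent.MP_ecfd11_lc.H65S.KP

/-!
The long extenders are in HOD.
-/

set_option synthInstance.maxSize 4000

namespace Pool.Agent.MP_ecfd11_lc.H65S

open Pool.Agent.MP_ecfd11_lc.H20 Pool.Agent.MP_ecfd11_lc.H13X Pool.Agent.MP_ecfd11_lc.H3U
  Pool.Agent.MP_ecfd11_lc.H3E

universe u

open ZFSet Cardinal Function Filter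

variable {g t a n G : ZFSet.{u}} {B : ZFSet.{u} → ZFSet.{u}}

theorem small {k : Cardinal.{u}} (hk : k ≤ card a)
    (hs : StronglyMeasurable Set.univ (succCard a)) (ha : a.IsOrdinal) (hn : n.IsOrdinal)
    (h : card (n.sep fun z => a ∈ z ∧ H46.HODCard z) ≤ k) : card n ≤ card a := by
  by_contra h0
  have lo := succCard_ord a
  have h1 : succCard a ⊆ n := (hn.notMem_iff_subset lo).1 fun e => h0 (mem_succCard.1 e).2
  obtain ⟨d, d1, d2⟩ := hs.1.bddV (x := (succCard a).sep fun z => a ∈ z ∧ H46.HODCard z)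
    (by
      rw [card_succCard]
      exact Order.lt_succ_iff.2 ((card_mono fun z hz =>
        mem_sep.2 ⟨h1 (mem_sep.1 hz).1, (mem_sep.1 hz).2⟩).trans (h.trans hk)))
    (fun z => z) fun z hz => (mem_sep.1 hz).1
  have hm := union_mem lo d1 (mem_succCard.2 ⟨ha, le_rfl⟩)
  have mo := lo.mem hm
  obtain ⟨e, e0, e1, e2⟩ := od_enum (hod_Lev mo).self fun x hx => ((hod_Lev mo).mem hx).self
  have e3 : img e (Lev (d ∪ a)) ∈ succCard a :=
    mem_succCard.2 ⟨e1, (card_img_le _ _).trans (card_Lev hs hm)⟩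
  obtain ⟨-, ⟨f, f0, f1⟩, -⟩ := H46.rho_spec e1
  have r0 := H46.rho_ord e1
  refine kp_cantor mo (DInj.trans ⟨e, e0, fun x hx => mem_img.2 ⟨x, hx, rfl⟩, e2⟩
    ((H46.dInj_of_od f0 f1).trans (DInj.of_subset ?_)))
  rcases ha.mem_or_subset r0 with h4 | h4
  · exact fun z hz => mem_union.2 (Or.inl ((lo.mem d1).mem_trans hz (d2 _ (mem_sep.2
      ⟨r0.mem_of_subset_of_mem lo (H46.rho_subset e1) e3, h4, H46.hodCard_rho e1⟩))))
  · exact fun z hz => mem_union.2 (Or.inr (h4 hz))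

theorem assemblyK (hg : ℵ₀ ≤ card g) (go : g.IsOrdinal) (h : Good t B a) (hb : BdK g a)
    (hs : SL a) (hr : RealK g t B a) {u : ZFSet.{u}} (hu : Cov a (Lev a) u) (hn : n.IsOrdinal)
    (n1 : card n ≤ card a) (n2 : card (n.sep fun z => a ∈ z ∧ H46.HODCard z) ≤ card g)
    (hG : G ∈ low t) : HOD Set.univ (ExQ B a n G) := by
  have ao := h.ord
  have hP := hod_ord (C := Set.univ) hn
  have g0 : HOD Set.univ G := (mem_sep.1 hG).2
  by_cases h0 : ∃ y, y ∈ n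
  · obtain ⟨v, hv⟩ := kp hg hs ao ((om_subset_iff ao).2 hs.unc.le) ⟨u, covK_of_cov hg hu⟩ hn
      n1 n2
    exact lemAK hs (hb.unc hg ao) go hb hP (covK_of_cov hg hu) hv ExQ_sub (apxQ h hP g0)
      (hr u v n G (covK_of_cov hg hu) hn.isTransitive h0 hv hG)
  · have e : ExQ B a n G = ∅ := (eq_empty _).2 fun z hz => by
      obtain ⟨x, -, y, hy, -⟩ := mem_prod.1 (ExQ_sub hz)
      exact h0 ⟨y, hy⟩
    rw [e]
    exact hod_ord isOrdinal_empty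

theorem assembly_cases (h : Good t B a) (hs : SL a) (h1 : Succ a (Lev a)) :
    (∃ u, Cov a (Lev a) u) ∨
      ∀ Q G, HOD Set.univ Q → HOD Set.univ G → HOD Set.univ (ExQ B a Q G) := by
  have ao := h.ord
  have hL := hod_Lev ao
  have := hod_tm hL
  have hc : card (Lev a) ≤ card a := card_le_of_surj (fun x => B x ∩ vC Set.univ a)
    fun A hA => (h.tr A hA).imp fun x hx => ⟨hx.1, hx.2.symm⟩
  refine (cf_cases hs (hod_ord ao) h1 hc).imp_right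
    fun ⟨m, c, f, m1, c1, c2, f0, f1, f2, f3⟩ Q G hP g0 => ?_
  have := hod_tm hP
  have := hod_tm f0
  refine lemB hs.sl hs.unc m1 c1 c2 (hod_prod hL hP) (fun r => prod (img (app f) r) Q)
    (fun z hz => ?_) ExQ_sub (apxQ h hP g0) fun r hr => ?_
  · obtain ⟨x, hx, y, hy, rfl⟩ := mem_prod.1 hz
    obtain ⟨r, r1, rfl⟩ := f2 x hx
    exact ⟨r, r1, fun s _ hs => pair_mem_prod.2 ⟨mem_img.2 ⟨r, hs, rfl⟩, hy⟩⟩
  · obtain ⟨F, k0, k1, k2⟩ := f3 r hr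
    refine amQ h hP g0 k0 k1 (hod_prod (hod_img (hod_ord (m1.1.mem hr)).self _ fun i hi =>
      hL.mem (f1 i (m1.1.mem_trans hi hr))) hP) fun x y hxy => ?_
    obtain ⟨i, hi, rfl⟩ := mem_img.1 (pair_mem_prod.1 hxy).1
    obtain ⟨z, z1, z2⟩ := k2 i hi
    exact ⟨z, z2 ▸ k1.app_mem z1⟩

theorem ctb_of_cov (ha : a.IsOrdinal) {u : ZFSet.{u}} (hu : Cov a (Lev a) u) : Ctb a (Lev a) := by
  obtain ⟨U, hU⟩ := real_enum hu.1 ((hu.2.2 _ (low_lev ha)).imp fun _ h => h.1)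
  refine ⟨U, fun m => hu.2.1 _ ((hU _).2 ⟨m, rfl⟩), fun x hx => ?_⟩
  obtain ⟨f, f1, f2⟩ := hu.2.2 x hx
  obtain ⟨m, rfl⟩ := (hU f).1 f1
  exact ⟨m, f2⟩

theorem main_low (ht : Regular Set.univ t) {Q f : ZFSet.{u}} (hn : n ∈ t)
    (hQ : Q ∈ vonNeumann t.rank) (hf : HOD Set.univ f) (f1 : IsFunc n Q f) : f ∈ low t := by
  have hu := unc_of_regular ht
  have la : ∀ b ∈ t, ∃ c ∈ t, b ∈ c := fun b h => hu.succ h
  have h1 : rank (pair n Q) < rank t := (mem_vC_ord ht.1).1 ((pair_vC ht.1 la).2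
    ⟨H3E.mem_vC ht.1 hn, (mem_vC_ord ht.1).2 (mem_vonNeumann.1 hQ)⟩)
  refine (mem_low ht.1).2 ⟨lt_of_le_of_lt (rank_le_iff.2 fun z hz => ?_) (succ_lt ht.1 la h1), hf⟩
  obtain ⟨x, hx, y, hy, rfl⟩ := mem_prod.1 (f1.1 hz)
  have h2 := (rank_lt_of_mem hx).le
  have h3 := (rank_lt_of_mem hy).le
  refine Order.lt_add_one_iff.2 ?_
  simp only [pair, rank_insert, rank_singleton]
  gcongr

theorem mainK {d x t : ZFSet.{u}} {k : Cardinal.{u}} (hd : StronglyCompact d t) (hdt : d ∈ t)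
    (hx : x ∈ t) (ht : Regular Set.univ t) (hk : ℵ₀ ≤ k) (hw : ∀ e ∈ t, card e ^ k < card t)
    (hs : ∀ l, x ∈ l → l ⊆ succCard t → Regular Set.univ l → StronglyMeasurable Set.univ l) :
    ∃ c, Club t c ∧ ∀ a ∈ c, (card a).IsStrongLimit →
      ¬ Regular Set.univ (card a).ord.toZFSet →
      (∀ y, y ⊆ a → card y ≤ k → ∃ b ∈ a, ∀ z ∈ y, z ∈ b) → Succ a (Lev a) →
      ∃ (N : Set ZFSet.{u}) (j : ZFSet.{u} → ZFSet.{u}), Near t N ∧
        Elem {y | HOD Set.univ y} N j ∧ (∀ y ∈ a, j y = y) ∧ j a = t ∧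
        ∀ Q, HOD Set.univ Q → (Ctb a (Lev a) → Q ∈ vonNeumann t.rank ∧ Few k a Q) →
          ∃ E, HOD Set.univ E ∧ E ⊆ prod (Lev a) Q ∧
            ∀ y z, pair y z ∈ E ↔ y ∈ Lev a ∧ z ∈ Q ∧ z ∈ j y := by
  obtain ⟨g, go, rfl⟩ : ∃ g : ZFSet.{u}, g.IsOrdinal ∧ card g = k :=
    ⟨_, isOrdinal_toZFSet _, card_ord' k⟩
  have hu := unc_of_regular ht
  have hw' : ∀ e ∈ t, card e ^ ℵ₀ < card t := fun e he => by
    by_cases h2 : card e = 0
    · rw [h2]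
      exact (zero_power_le _).trans_lt (one_lt_aleph0.trans ht.aleph0_lt)
    · exact (power_le_power_left h2 hk).trans_lt (hw e he)
  have h5 : ∀ a : ZFSet.{u}, a.IsOrdinal → a ∈ succCard a := fun a ha =>
    mem_succCard.2 ⟨ha, le_rfl⟩
  have h6 : ∀ a : ZFSet.{u}, a.IsOrdinal → x ∈ a → a ⊆ t → ℵ₀ ≤ card a →
      StronglyMeasurable Set.univ (succCard a) := fun a ha h1 h2 h3 =>
    hs _ ((succCard_ord a).mem_trans h1 (h5 a ha)) (fun z hz => mem_succCard.2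
      ⟨(mem_succCard.1 hz).1, (mem_succCard.1 hz).2.trans (card_mono h2)⟩) (regular_succCard h3)
  have hst := hs t hx ((succCard_ord t).subset_of_mem (h5 t ht.1)) ht
  obtain ⟨B, hB⟩ := system hd hdt hst
    (card_Lev (h6 t ht.1 hx subset_rfl ht.aleph0_lt.le) (h5 t ht.1)) hw'
  obtain ⟨c, c1, c2⟩ := (ev_iff hu).1
    (hB.and ((realK hk ht hw (hB.mono fun _ h => h.1)).and (ev_above hu hx)))
  refine ⟨c, c1, fun a ha a1 a2 a3 a4 => ?_⟩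
  obtain ⟨⟨G, g1⟩, g2, g3⟩ := not_not.1 fun h => c2 a (mem_sep.2 ⟨c1.1 ha, h⟩) ha
  have au := BdK.unc a3 hk G.ord
  have sl := sl_of a1 a2 au
  have sm := h6 a G.ord g3 G.sub sl.unc.le
  have ga : card g ≤ card a := by
    by_contra h
    obtain ⟨b, b1, b2⟩ := a3 a subset_rfl (not_le.1 h).le
    exact mem_irrefl b (b2 b b1)
  obtain ⟨N, j, n1, n2, n3, n4, n5⟩ := g1 au
  refine ⟨N, j, n1, n2, n3, n4, fun Q q0 hQ => ?_⟩
  obtain ⟨n, f, f0, f1, f2, m3⟩ : ∃ n f, HOD Set.univ f ∧ IsFunc n Q f ∧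
      (∀ x ∈ Q, ∃ r, pair r x ∈ f) ∧ HOD Set.univ (ExQ B a n f) := by
    rcases assembly_cases G sl a4 with ⟨u, hu'⟩ | h
    · obtain ⟨hQ, n, f, hn, f0, f1, f2, f3⟩ := hQ (ctb_of_cov G.ord hu')
      have m1 := small ga sm G.ord hn f3
      have m2 : n ∈ t := ht.mem_of_card_lt hn (m1.trans_lt (ht.card_lt (c1.1 ha)))
      exact ⟨n, f, f0, f1, f2,
        assemblyK hk go G a3 sl (g2 a3) hu' hn m1 f3 (main_low ht m2 hQ f0 f1)⟩
    · have f0 := hod_grA q0 (fun z => z) fun i hi => q0.mem hi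
      exact ⟨Q, _, f0, isFunc_gr fun _ hi => hi, fun x hx => ⟨x, pair_mem_gr.2 ⟨hx, rfl⟩⟩,
        h Q _ q0 f0⟩
  have := hod_tm f0
  refine ⟨img (fun p => pair (fst p) (app f (snd p))) (ExQ B a n f),
    hod_img m3.self _ fun p hp => ?_, fun w hw => ?_, fun y z => ?_⟩
  · obtain ⟨x, hx, y, hy, rfl⟩ := mem_prod.1 (ExQ_sub hp)
    rw [fst_pair, snd_pair]
    exact hod_pair ((mem_Lev G.ord).1 hx).2 (hod_app f0 f1 hy)
  · obtain ⟨p, hp, rfl⟩ := mem_img.1 hw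
    obtain ⟨x, hx, y, hy, rfl⟩ := mem_prod.1 (ExQ_sub hp)
    rw [fst_pair, snd_pair]
    exact pair_mem_prod.2 ⟨hx, f1.app_mem' hy⟩
  · rw [mem_img]
    constructor
    · rintro ⟨p, hp, e⟩
      obtain ⟨x, -, i, -, rfl⟩ := mem_prod.1 (ExQ_sub hp)
      rw [fst_pair, snd_pair] at e
      obtain ⟨rfl, rfl⟩ := pair_inj.1 e
      obtain ⟨p1, p2, w, w1, w2, w3⟩ := mem_ExQ.1 hp
      exact ⟨p1, f1.app_mem' p2, by rwa [w2, n5 w w1]⟩
    · rintro ⟨p1, p2, p3⟩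
      obtain ⟨i, hi⟩ := f2 z p2
      obtain ⟨w, w1, rfl⟩ := G.tr y p1
      refine ⟨pair _ i, mem_ExQ.2 ⟨p1, (pair_mem_prod.1 (f1.1 hi)).1, w, w1, rfl, ?_⟩, ?_⟩
      · rwa [f1.app_eq hi, ← n5 w w1]
      · rw [fst_pair, snd_pair, f1.app_eq hi]

end Pool.Agent.MP_ecfd11_lc.H65S
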