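import Pool.Agent.MP_ecfd11_lc.H65S.Base

/-!
Amenability of the long extenders.
-/

set_option synthInstance.maxSize 4000

namespace Pool.Agent.MP_ecfd11_lc.H65S

open Pool.Agent.MP_ecfd11_lc.H20 Pool.Agent.MP_ecfd11_lc.H13X Pool.Agent.MP_ecfd11_lc.H3U
  Pool.Agent.MP_ecfd11_lc.H3E

universe u

open ZFSet Cardinal Function Filter

variable {t L g Q G : ZFSet.{u}} {B : ZFSet.{u} → ZFSet.{u}}

theorem amQ (h : Good t B L) (hQ : HOD Set.univ Q) (hG : HOD Set.univ G)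
    (hg : HOD Set.univ g) (g1 : IsFunc L (Lev L) g) {W : ZFSet.{u}}
    (hW : HOD Set.univ W) (h1 : ∀ x y, pair x y ∈ W → ∃ i, pair i x ∈ g) :
    HOD Set.univ (ExQ B L Q G ∩ W) := by
  obtain ⟨w, hw, hc⟩ := h.code hg g1
  have := hod_tm hg
  have := hod_tm hW
  have := hod_tm (h.hod w hw)
  have := hod_tm hQ
  have := hod_tm hG
  have : Tm Set.univ On (fun _ => L) := Tm.ofOrd h.ord
  have e : ExQ B L Q G ∩ W = W.sep fun p => ∃ i, i ∈ L ∧ p = pair (app g i) (snd p) ∧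
      snd p ∈ Q ∧ pair i (app G (snd p)) ∈ B w := by
    refine ZFSet.ext fun p => ?_
    rw [mem_inter, mem_sep]
    constructor
    · rintro ⟨h2, h3⟩
      obtain ⟨x, -, y, -, rfl⟩ := mem_prod.1 (ExQ_sub h2)
      obtain ⟨-, h4, v, hv, h5, h6⟩ := mem_ExQ.1 h2
      obtain ⟨i, hi⟩ := h1 x y h3
      have hi' : i ∈ L := (pair_mem_prod.1 (g1.1 hi)).1
      have h7 : app g i = x := g1.app_eq hi
      rw [snd_pair]
      exact ⟨h3, i, hi', by rw [h7], h4, (hc i hi' v hv (h7.trans h5) _).1 h6⟩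
    · rintro ⟨h2, i, hi, h3, h4, h5⟩
      obtain ⟨v, hv, h6⟩ := h.tr _ (g1.app_mem' hi)
      refine ⟨?_, h2⟩
      rw [h3]
      exact mem_ExQ.2 ⟨g1.app_mem' hi, h4, v, hv, h6, (hc i hi v hv h6 _).2 h5⟩
  exact hod_sub hW (fun _ hz => (mem_inter.1 hz).2) (od_iff.2 (e ▸ inferInstance))

theorem apxQ (h : Good t B L) (hQ : HOD Set.univ Q) (hG : HOD Set.univ G) :
    Apx L (prod (Lev L) Q) (ExQ B L Q G) := by
  intro W hW h1 h2
  have hx : ∀ x ∈ img fst W, x ∈ Lev L := fun x hx => by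
    obtain ⟨p, hp, rfl⟩ := mem_img.1 hx
    obtain ⟨x, hx, y, -, rfl⟩ := mem_prod.1 (h1 hp)
    rwa [fst_pair]
  have hX : HOD Set.univ (img fst W) := hod_img hW.self fst fun p hp =>
    ((mem_Lev h.ord).1 (hx _ (mem_img.2 ⟨p, hp, rfl⟩))).2
  obtain ⟨k, k0, k1, k2⟩ := od_enum hX.self fun x hx => (hX.mem hx).self
  have := Tm.one (C := Set.univ) (A := On) k
  have := hod_tm hX
  have hk : img k (img fst W) ∈ L := (k1.mem_or_subset h.ord).resolve_right fun h3 =>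
    h2 ((card_mono h3).trans ((card_img_le _ _).trans (card_img_le _ _)))
  have hF : ∀ x ∈ img fst W, ⋃₀ ((img fst W).sep fun z => k z = k x) = x := fun x hx => by
    refine ZFSet.ext fun z => ?_
    rw [mem_sUnion]
    constructor
    · rintro ⟨y, hy, hz⟩
      obtain ⟨h3, h4⟩ := mem_sep.1 hy
      exact k2 y h3 x hx h4 ▸ hz
    · exact fun hz => ⟨x, mem_sep.2 ⟨hx, rfl⟩, hz⟩
  have hF' : ∀ i, ⋃₀ ((img fst W).sep fun z => k z = i) ∈ Lev L := fun i => by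
    by_cases hi : ∃ x ∈ img fst W, k x = i
    · obtain ⟨x, h3, rfl⟩ := hi
      rw [hF x h3]
      exact hx x h3
    · have e : ⋃₀ ((img fst W).sep fun z => k z = i) = ∅ := by
        refine (eq_empty _).2 fun z hz => ?_
        obtain ⟨y, hy, -⟩ := mem_sUnion.1 hz
        exact hi ⟨y, mem_sep.1 hy⟩
      rw [e]
      exact (mem_Lev h.ord).2 ⟨empty_subset _, hod_ord isOrdinal_empty⟩
  have g1 : IsFunc L (Lev L) (gr (fun i => ⋃₀ ((img fst W).sep fun z => k z = i)) L) :=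
    isFunc_gr fun i _ => hF' i
  refine amQ h hQ hG (hod_grA (hod_ord h.ord) _ fun i _ => ((mem_Lev h.ord).1 (hF' i)).2) g1 hW
    fun x y hp => ⟨k x, ?_⟩
  have h3 : x ∈ img fst W := mem_img.2 ⟨_, hp, fst_pair ..⟩
  have h4 : k x ∈ L := h.ord.mem_trans (mem_img.2 ⟨x, h3, rfl⟩) hk
  have h5 := g1.app_mem h4
  rwa [app_gr h4, hF x h3] at h5

end Pool.Agent.MP_ecfd11_lc.H65S
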