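import Pool.Agent.MP_ecfd11_lc.H65S.Base

/-!
Covered sets.
-/

set_option synthInstance.maxSize 4000

namespace Pool.Agent.MP_ecfd11_lc.H65S

open Pool.Agent.MP_ecfd11_lc.H20 Pool.Agent.MP_ecfd11_lc.H13X Pool.Agent.MP_ecfd11_lc.H3U
  Pool.Agent.MP_ecfd11_lc.H3E

universe u

open ZFSet Cardinal Function Filter

/-- `X` is covered by at most `g` functions on `a` in HOD. -/
def Cvd (g a X : ZFSet.{u}) : Prop := ∃ u, CovK g a X u

end Pool.Agent.MP_ecfd11_lc.H65S
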